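import Pool.Agent.J6H81.NC.NV
import Pool.Agent.J6H99.NC.Stm3

/-!
# Modules NV and DENSE
-/

set_option autoImplicit false

open MeasureTheory ProbabilityTheory Filter Topology
open scoped ENNReal

namespace Pool.Agent.J6H81.NC

open Pool.Agent.J6H99.NC

variable {e : ℕ}

lemma ext_dt {c c' : E e} (h : ∀ y, dt c y = dt c' y) : c = c' := by
  funext i
  have h1 := h (vc (u i))
  have h2 := lf_u c i
  have h3 := lf_u c' i
  unfold lf at h2 h3
  rw [← h2, ← h3, h1]

lemma dt_comm (c y : E e) : dt c y = dt y c := by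
  unfold dt
  exact Finset.sum_congr rfl fun i _ => mul_comm _ _

/-- the pair of the values at `p` and `y` -/
noncomputable def phi (p y : E e) : E e →ₗ[ℝ] ℝ × ℝ where
  toFun w := (dt w p, dt w y)
  map_add' a b := by simp [add_dt]
  map_smul' r a := by simp [smul_dt]

lemma range_phi {p y : E e} (hp : p ≠ 0) (hy : ∀ r : ℝ, y ≠ r • p) :
    LinearMap.range (phi p y) = ⊤ := by
  by_contra hne
  obtain ⟨f, hf, hker⟩ := Submodule.exists_le_ker_of_lt_top _ (lt_top_iff_ne_top.2 hne)
  set a := f (1, 0) with ha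
  set b := f (0, 1) with hb
  have hfab : ∀ x : ℝ × ℝ, f x = x.1 * a + x.2 * b := by
    intro x
    have h1 : x = x.1 • ((1, 0) : ℝ × ℝ) + x.2 • ((0, 1) : ℝ × ℝ) := by
      ext <;> simp
    conv_lhs => rw [h1]
    rw [map_add, map_smul, map_smul, smul_eq_mul, smul_eq_mul]
  have h2 : ∀ w : E e, dt w (a • p + b • y) = 0 := by
    intro w
    have h3 : f (phi p y w) = 0 := hker ⟨w, rfl⟩
    rw [hfab] at h3
    have h4 : (phi p y w).1 = dt w p := rfl
    have h5 : (phi p y w).2 = dt w y := rfl
    rw [h4, h5] at h3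
    rw [dt_add, dt_smul, dt_smul]
    linarith
  have h3 : a • p + b • y = 0 := by
    apply ext_dt
    intro w
    rw [dt_comm, h2 w]
    simp [dt]
  by_cases hb0 : b = 0
  · rw [hb0, zero_smul, add_zero] at h3
    rcases smul_eq_zero.1 h3 with h4 | h4
    · apply hf
      apply LinearMap.ext
      intro x
      rw [hfab, h4, hb0]
      simp
    · exact hp h4
  · apply hy (-(a / b))
    have h4 : b • y = -(a • p) := by
      rw [eq_neg_iff_add_eq_zero, add_comm]; exact h3
    calc y = b⁻¹ • (b • y) := by rw [smul_smul, inv_mul_cancel₀ hb0, one_smul]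
      _ = -(a / b) • p := by rw [h4, smul_neg, smul_smul, neg_smul]; congr 2; ring

/-- MODULE NV -/
theorem nv : NVT := by
  intro e q F _ hfar hcor p hp
  obtain ⟨y, hy, h⟩ := no_vertex (q := q) (F := F) hfar hcor hp
  have h1 : vectorSpan ℝ {c : E e | Supp q F c p} ≤ LinearMap.ker (phi p y) := by
    rw [vectorSpan_def, Submodule.span_le]
    rintro w ⟨c, hc, c', hc', rfl⟩
    have h2 : dt c y = dt c' y := h c c' hc hc'
    have h3 : dt c p = dt c' p := by
      rw [(supp_iff.1 hc).2, (supp_iff.1 hc').2]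
    show phi p y (c -ᵥ c') = 0
    have h4 : phi p y (c -ᵥ c') = (dt (c - c') p, dt (c - c') y) := rfl
    rw [h4, sub_dt, sub_dt, h2, h3, sub_self, sub_self]
    rfl
  have h2 := Submodule.finrank_mono h1
  have h3 := LinearMap.finrank_range_add_finrank_ker (phi p y)
  rw [range_phi hp hy, finrank_top] at h3
  have h4 : Module.finrank ℝ (ℝ × ℝ) = 2 := by simp
  have h5 : Module.finrank ℝ (E e) = e + 2 := by simp
  rw [h4, h5] at h3
  have h6 : Module.finrank ℝ (LinearMap.ker (phi p y)) = e := by linarith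
  exact h2.trans h6.le

section

variable {q : Par} {F : Measure ℝ} [IsProbabilityMeasure F]

lemma nr_le_norm (y : E e) : nr y ≤ ((e : ℝ) + 2) * ‖y‖ := by
  unfold nr
  calc ∑ i, |y i| ≤ ∑ _i : Fin (e + 2), ‖y‖ := Finset.sum_le_sum fun i _ => by
        rw [← Real.norm_eq_abs]; exact norm_le_pi_norm y i
    _ = ((e : ℝ) + 2) * ‖y‖ := by simp

lemma L_lip' (y y' : E e) : L q F y ≤ L q F y' + q.b * nr (y - y') := by
  have h1 := L_add (q := q) (F := F) y' (y - y')
  rw [add_sub_cancel] at h1
  linarith [L_bound (q := q) (F := F) (y - y')]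

lemma lipschitz_L : LipschitzWith (Real.toNNReal (q.b * ((e : ℝ) + 2))) (L q F : E e → ℝ) := by
  have hb := q.hb
  refine LipschitzWith.of_dist_le_mul fun y y' => ?_
  rw [Real.coe_toNNReal _ (by positivity), Real.dist_eq, dist_eq_norm]
  have h1 := L_lip' (q := q) (F := F) y y'
  have h2 := L_lip' (q := q) (F := F) y' y
  rw [nr_sub_comm] at h2
  have h3 := mul_le_mul_of_nonneg_left (nr_le_norm (y - y')) hb.le
  rw [abs_le]
  constructor <;> linarith

/-- at a point of differentiability the supporting functional is unique -/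
lemma unique_of_diff {y : E e} (h : DifferentiableAt ℝ (L q F) y) {c c' : E e}
    (hc : c ∈ CC q F) (hcy : dt c y = L q F y) (hc' : c' ∈ CC q F) (hcy' : dt c' y = L q F y) :
    c' = c := by
  have key : ∀ c : E e, c ∈ CC q F → dt c y = L q F y → ∀ z : E e,
      fderiv ℝ (L q F) y z = dt c z := by
    intro c hc hcy z
    have h1 : HasDerivAt (fun t : ℝ => y + t • z) z 0 := by
      have h2 : HasDerivAt (fun t : ℝ => t • z) ((1 : ℝ) • z) 0 :=
        (hasDerivAt_id (0 : ℝ)).smul_const z
      rw [one_smul] at h2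
      exact h2.const_add y
    have h2 : HasFDerivAt (L q F) (fderiv ℝ (L q F) y) (y + (0 : ℝ) • z) := by
      rw [zero_smul, add_zero]; exact h.hasFDerivAt
    have h3 : HasDerivAt (fun t : ℝ => L q F (y + t • z)) (fderiv ℝ (L q F) y z) 0 :=
      HasFDerivAt.comp_hasDerivAt (l := (L q F : E e → ℝ)) (f := fun t : ℝ => y + t • z)
        (0 : ℝ) h2 h1
    have h4 : HasDerivAt (fun t : ℝ => L q F (y + t • z) - t * dt c z)
        (fderiv ℝ (L q F) y z - 1 * dt c z) 0 :=
      h3.sub ((hasDerivAt_id (0 : ℝ)).mul_const (dt c z))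
    have h5 : IsLocalMin (fun t : ℝ => L q F (y + t • z) - t * dt c z) 0 := by
      refine Eventually.of_forall fun t => ?_
      have h6 := dt_le_L hc (y + t • z)
      rw [dt_add, dt_smul, hcy] at h6
      simp only [zero_smul, add_zero, zero_mul, sub_zero]
      linarith
    have h6 := h5.hasDerivAt_eq_zero h4
    linarith
  apply ext_dt
  intro z
  rw [← key c hc hcy z, ← key c' hc' hcy' z]

/-- MODULE DENSE -/
theorem dense : DenseT := by
  intro e q F _ hfar y hy δ hδ
  have hb := q.hb
  have hae : ∀ᵐ x : E e ∂volume, DifferentiableAt ℝ (L q F) x :=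
    lipschitz_L.ae_differentiableAt
  have hd : Dense {x : E e | DifferentiableAt ℝ (L q F) x} := Measure.dense_of_ae hae
  set B : ℝ := (q.b + ((e : ℝ) + 2) * q.b) * ((e : ℝ) + 2) with hB
  have hB0 : 0 < B := by positivity
  obtain ⟨y', hy', hdist⟩ := hd.exists_dist_lt y
    (show 0 < min (δ / 2 / B) ‖y‖ from lt_min (by positivity) (norm_pos_iff.2 hy))
  have hy'0 : y' ≠ 0 := by
    rintro rfl
    rw [dist_zero_right] at hdist
    exact absurd (hdist.trans_le (min_le_right _ _)) (lt_irrefl _)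
  obtain ⟨c, hc, hcy⟩ := exists_supp (q := q) (F := F) y'
  have hu : ∀ c' ∈ CC q F, dt c' y' = L q F y' → c' = c := fun c' hc' hcy' =>
    unique_of_diff hy' hc hcy hc' hcy'
  refine ⟨c, ⟨y', ?_, dif_of_unique hc hcy hu, supp_iff.2 ⟨hc, hcy⟩⟩, ?_⟩
  · rw [hcy]; exact L_pos hfar hy'0
  · have h1 : L q F y ≤ dt c y + δ / 2 := by
      have h2 := L_lip' (q := q) (F := F) y y'
      have h3 := (abs_le.1 (abs_dt_le c (y' - y))).2
      rw [dt_sub] at h3
      have h4 := CC_nr hc
      have h5 := nr_nonneg (y - y')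
      rw [nr_sub_comm] at h3
      have h6 : nr c * nr (y - y') ≤ ((e : ℝ) + 2) * q.b * nr (y - y') :=
        mul_le_mul_of_nonneg_right h4 h5
      have h7 : nr (y - y') ≤ ((e : ℝ) + 2) * (δ / 2 / B) := by
        refine (nr_le_norm (y - y')).trans (mul_le_mul_of_nonneg_left ?_ (by positivity))
        rw [← dist_eq_norm]
        exact hdist.le.trans (min_le_left _ _)
      have h8 : (q.b + ((e : ℝ) + 2) * q.b) * nr (y - y') ≤ δ / 2 := by
        calc (q.b + ((e : ℝ) + 2) * q.b) * nr (y - y')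
            ≤ (q.b + ((e : ℝ) + 2) * q.b) * (((e : ℝ) + 2) * (δ / 2 / B)) :=
              mul_le_mul_of_nonneg_left h7 (by positivity)
          _ = δ / 2 := by rw [← mul_assoc, ← hB]; field_simp
      have h9 : (q.b + ((e : ℝ) + 2) * q.b) * nr (y - y') =
          q.b * nr (y - y') + ((e : ℝ) + 2) * q.b * nr (y - y') := by ring
      linarith
    filter_upwards [(U_L (q := q) (F := F) y).mono h1 (δ / 2) (by positivity)] with n hn
    refine hn.trans (mul_le_mul_of_nonneg_left (by linarith) (Nat.cast_nonneg n))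

end

end Pool.Agent.J6H81.NC
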