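import Pool.Agent.J6H81.NC.G2

/-!
# Module GEO
-/

set_option autoImplicit false

open MeasureTheory ProbabilityTheory Filter Topology
open scoped ENNReal

namespace Pool.Agent.J6H81.NC

open Pool.Agent.J6H99.NC

/-- the rotated vector -/
def rot (v : E 0) : E 0 := ![-v 1, v 0]

lemma rot_decomp {v : E 0} (hv : v ≠ 0) (y : E 0) : ∃ a b : ℝ, y = a • v + b • rot v := by
  have h : 0 < v 0 ^ 2 + v 1 ^ 2 := by
    by_contra hle
    push Not at hle
    have h0 : v 0 = 0 := by nlinarith [sq_nonneg (v 0), sq_nonneg (v 1)]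
    have h1 : v 1 = 0 := by nlinarith [sq_nonneg (v 0), sq_nonneg (v 1)]
    apply hv
    funext i
    fin_cases i
    · exact h0
    · exact h1
  refine ⟨(y 0 * v 0 + y 1 * v 1) / (v 0 ^ 2 + v 1 ^ 2),
    (y 1 * v 0 - y 0 * v 1) / (v 0 ^ 2 + v 1 ^ 2), ?_⟩
  funext i
  fin_cases i
  · simp [rot]
    field_simp
    ring
  · simp [rot]
    field_simp
    ring

lemma ext_of_dt {c c' : E 0} (h : ∀ y, dt c y = dt c' y) : c = c' := by
  funext i
  have h1 := h (vc (u i))
  have h2 := lf_u c i
  have h3 := lf_u c' i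
  unfold lf at h2 h3
  rw [← h2, ← h3, h1]

variable {q : Par} {F : Measure ℝ} [IsProbabilityMeasure F]

/-- two supporting functionals at a point with time constant `1` give a corner -/
lemma corner {v : E 0} (hv : v ≠ 0) (hv1 : L q F v = 1) {c c' : E 0} (hc : c ∈ DD q F v)
    (hc' : c' ∈ DD q F v) (hne : c ≠ c') : Nonempty (Cor 0 q F (Fin 2)) := by
  obtain ⟨f0, hf0, hmax⟩ := (isCompact_DD (q := q) (F := F) v).exists_isMaxOn (DD_nonempty v)
    (continuous_dt_left (rot v)).continuousOn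
  obtain ⟨f1, hf1, hmin⟩ := (isCompact_DD (q := q) (F := F) v).exists_isMinOn (DD_nonempty v)
    (continuous_dt_left (rot v)).continuousOn
  have hmax' : ∀ c ∈ DD q F v, dt c (rot v) ≤ dt f0 (rot v) := fun c hc => hmax hc
  have hmin' : ∀ c ∈ DD q F v, dt f1 (rot v) ≤ dt c (rot v) := fun c hc => hmin hc
  set M := dt f0 (rot v) with hM
  set m := dt f1 (rot v) with hm
  have h0v : dt f0 v = 1 := hf0.2.trans hv1
  have h1v : dt f1 v = 1 := hf1.2.trans hv1
  have hmM : m < M := by
    have h1 := hmax' c hc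
    have h2 := hmin' c hc
    have h3 := hmax' c' hc'
    have h4 := hmin' c' hc'
    by_contra hle
    push Not at hle
    apply hne
    apply ext_of_dt
    intro y
    obtain ⟨a, b, rfl⟩ := rot_decomp hv y
    simp only [dt_add, dt_smul]
    rw [hc.2, hc'.2]
    have : dt c (rot v) = dt c' (rot v) := by linarith
    rw [this]
  set w : E 0 := rot v - ((M + m) / 2) • v with hw
  have hw0 : w ≠ 0 := by
    intro h
    have h1 : rot v = ((M + m) / 2) • v := by rwa [hw, sub_eq_zero] at h
    have h2 : M = (M + m) / 2 := by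
      have h3 := congrArg (dt f0) h1
      rwa [dt_smul, h0v, mul_one, ← hM] at h3
    linarith
  have hnw := nr_pos hw0
  refine ⟨{
    v := v
    f := ![f0, f1]
    fv := ?_
    lb := ?_
    c0 := (M - m) / (2 * nr w)
    c0_pos := div_pos (by linarith) (by positivity)
    lat := ?_
    u := ![rot v - M • v, -(rot v - m • v)]
    fu := ?_
    u_ne := ?_
    tang := ?_
    ub := ?_ }⟩
  · intro i
    fin_cases i
    · exact h0v
    · exact h1v
  · intro i
    fin_cases i
    · exact hf0.1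
    · exact hf1.1
  · intro y
    obtain ⟨a, b, rfl⟩ := rot_decomp hv y
    have hchi : dt ((Fintype.card (Fin 2) : ℝ)⁻¹ • ∑ j, (![f0, f1] : Fin 2 → E 0) j)
        (a • v + b • rot v) = a + b * ((M + m) / 2) := by
      rw [smul_dt, Fin.sum_univ_two]
      simp only [Matrix.cons_val_zero, Matrix.cons_val_one, Fintype.card_fin]
      rw [add_dt]
      simp only [dt_add, dt_smul]
      rw [h0v, h1v, ← hM, ← hm]
      push_cast
      ring
    rw [hchi]
    have hy : a • v + b • rot v - (a + b * ((M + m) / 2)) • v = b • w := by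
      rw [hw]
      module
    rw [hy, nr_smul]
    have hc0 : (M - m) / (2 * nr w) * (|b| * nr w) = |b| * ((M - m) / 2) := by
      field_simp
    rw [hc0]
    rcases le_total 0 b with hb | hb
    · refine ⟨0, ?_⟩
      show |b| * ((M - m) / 2) ≤ dt f0 (a • v + b • rot v) - (a + b * ((M + m) / 2))
      rw [dt_add, dt_smul, dt_smul, h0v, ← hM, abs_of_nonneg hb]
      apply le_of_eq
      ring
    · refine ⟨1, ?_⟩
      show |b| * ((M - m) / 2) ≤ dt f1 (a • v + b • rot v) - (a + b * ((M + m) / 2))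
      rw [dt_add, dt_smul, dt_smul, h1v, ← hm, abs_of_nonpos hb]
      apply le_of_eq
      ring
  · intro i
    fin_cases i
    · show dt f0 (rot v - M • v) = 0
      rw [dt_sub, dt_smul, h0v, ← hM]; ring
    · show dt f1 (-(rot v - m • v)) = 0
      rw [dt_neg, dt_sub, dt_smul, h1v, ← hm]; ring
  · intro i
    fin_cases i
    · show rot v - M • v ≠ 0
      intro h
      have h1 : rot v = M • v := by rwa [sub_eq_zero] at h
      have h2 : m = M := by rw [hm, h1, dt_smul, h1v, mul_one]
      linarith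
    · show -(rot v - m • v) ≠ 0
      intro h
      have h1 : rot v = m • v := by rwa [neg_eq_zero, sub_eq_zero] at h
      have h2 : M = m := by rw [hM, h1, dt_smul, h0v, mul_one]
      linarith
  · have key : ∀ w' : E 0, (∀ c ∈ CC q F, dt c v = L q F v → dt c w' ≤ 0) → ∀ δ : ℝ, 0 < δ →
        ∃ s0 : ℝ, 0 < s0 ∧ ∀ s : ℝ, 0 < s → s ≤ s0 →
        ∀ᶠ n : ℕ in atTop, g q F (rnd ((n : ℝ) • (v + s • w'))) ≤ n * (1 + δ * s) := by
      intro w' hw' δ hδ
      obtain ⟨s0, hs0, h1⟩ := tangency hw' (show 0 < δ / 2 by positivity)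
      refine ⟨s0, hs0, fun s hs hss => ?_⟩
      have h2 := h1 s hs hss
      rw [hv1] at h2
      have h3 := (U_L (q := q) (F := F) (v + s • w')).mono h2 (δ / 2 * s) (by positivity)
      filter_upwards [h3] with n hn
      refine hn.trans (mul_le_mul_of_nonneg_left (le_of_eq ?_) (Nat.cast_nonneg n))
      ring
    intro i
    fin_cases i
    · refine key (rot v - M • v) fun c hc hcv => ?_
      rw [dt_sub, dt_smul, hcv, hv1]
      have := hmax' c ⟨hc, hcv⟩
      linarith
    · refine key (-(rot v - m • v)) fun c hc hcv => ?_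
      rw [dt_neg, dt_sub, dt_smul, hcv, hv1]
      have := hmin' c ⟨hc, hcv⟩
      linarith
  · have h1 := U_L (q := q) (F := F) v
    rw [hv1] at h1
    exact h1

/-- MODULE GEO -/
theorem geo : GeoT := by
  intro q F _ hfar hcor y hy
  have hL := L_pos (q := q) (F := F) hfar hy
  have huniq : ∀ c ∈ CC q F, dt c y = L q F y → ∀ c' ∈ CC q F, dt c' y = L q F y → c' = c := by
    intro c hc hcy c' hc' hcy'
    by_contra hne
    have hv0 : (L q F y)⁻¹ • y ≠ 0 := smul_ne_zero (inv_ne_zero hL.ne') hy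
    have hv1 : L q F ((L q F y)⁻¹ • y) = 1 := by
      rw [L_smul (inv_pos.2 hL), inv_mul_cancel₀ hL.ne']
    obtain ⟨D⟩ := corner hv0 hv1 (c := c') (c' := c)
      ⟨hc', by rw [dt_smul, hcy', L_smul (inv_pos.2 hL)]⟩
      ⟨hc, by rw [dt_smul, hcy, L_smul (inv_pos.2 hL)]⟩ hne
    exact hcor D
  obtain ⟨c, hc, hcy⟩ := exists_supp (q := q) (F := F) y
  refine ⟨c, supp_iff.2 ⟨hc, hcy⟩, dif_of_unique hc hcy (huniq c hc hcy), by rwa [hcy],
    fun c' hc' => ?_⟩
  obtain ⟨h1, h2⟩ := supp_iff.1 hc'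
  exact huniq c hc hcy c' h1 h2

end Pool.Agent.J6H81.NC
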